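import Mathlib
import Pool.Agent.R127.PathPairMain

namespace Pool.Agent.Results.MP_74cbe5_co.UnboundedDiameter

open Pool.Agent.R127.PathPair

theorem exists_graph (ε : ℝ) (hε : ε < 1 / 2) (D : ℕ) :
    ∃ (V : Type) (_ : Fintype V) (G : SimpleGraph V),
        Even (Fintype.card V) ∧ G.Connected ∧ PathPairable G ∧
        (G.edgeSet.ncard : ℝ) ≤ (2 - ε) * Fintype.card V ∧ D ≤ G.diam := by
  set δ : ℝ := 1 / 2 - ε with hδ
  have hδ0 : 0 < δ := by rw [hδ]; linarith
  obtain ⟨s0, hs0⟩ := exists_nat_ge (2 / δ)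
  set s : ℕ := s0 + 2 with hs
  have hsδ : 2 ≤ δ * (s : ℝ) := by
    have h1 : 2 / δ ≤ (s : ℝ) := by
      rw [hs]; push_cast; linarith
    rw [div_le_iff₀ hδ0] at h1
    linarith
  set τ : ℕ := 2 ^ (D + 1) with hτ
  set c : ℕ := (4 * s + 1) * (τ + 1) with hc
  obtain ⟨m0, hm0⟩ := exists_nat_ge (2 * (τ : ℝ) + 2 * (τ * τ) + (3 / 2 + δ) * (2 * c))
  set mu : ℕ := m0 + 2 * c + 1 with hmu
  have hKle : 2 * c ≤ mu * s := by
    have h1 : 2 * c ≤ mu := by omega
    have h2 : mu * 1 ≤ mu * s := Nat.mul_le_mul_left _ (by omega)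
    omega
  obtain ⟨lam, hlam⟩ := Nat.exists_eq_add_of_le hKle
  have hK : (8 * s + 2) * (τ + 1) = 2 * c := by rw [hc]; ring
  refine ⟨Vt D s mu lam, inferInstance, GG D s mu lam, ?_, connected_GG (by omega) (by omega),
    pathPairable_GG (by omega) ?_, ?_, ?_⟩
  · rw [card_Vt, hlam]
    rw [Nat.even_iff]
    omega
  · rw [← hτ, hK, hlam]; omega
  · have h1 := ncard_edges (k := D) (s := s) (mu := mu) (lam := lam) (by omega)
    rw [← hτ] at h1
    have h2 : ((GG D s mu lam).edgeSet.ncard : ℝ) ≤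
        lam + 2 * (mu * s) + 2 * mu + 2 * τ + 2 * (τ * τ) := by exact_mod_cast h1
    refine h2.trans ?_
    rw [card_Vt, ← hτ]
    push_cast
    have h3 : (mu : ℝ) * s = 2 * c + lam := by exact_mod_cast hlam
    have h4 : (m0 : ℝ) ≤ mu := by
      rw [hmu]; push_cast
      have : (0 : ℝ) ≤ c := Nat.cast_nonneg _
      linarith
    have h5 : (0 : ℝ) ≤ τ := Nat.cast_nonneg _
    have h6 : (0 : ℝ) ≤ c := Nat.cast_nonneg _
    have h7 : (0 : ℝ) ≤ mu := Nat.cast_nonneg _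
    have h8 : 2 * (mu : ℝ) ≤ δ * (mu * s) := by
      have := mul_le_mul_of_nonneg_left hsδ h7
      linarith
    have h9 : ε = 1 / 2 - δ := by rw [hδ]; ring
    have h10 : (lam : ℝ) = mu * s - 2 * c := by linarith
    rw [h9, h10]
    have h11 : 0 ≤ (3 / 2 + δ) * (2 + 2 * (τ : ℝ)) := by positivity
    nlinarith [h8, hm0, h4, h11, h6]
  · exact le_trans (by omega) (diam_ge (k := D) (s := s) (mu := mu) (lam := lam)
      (by omega) (by omega))

/-- For every `ε < 1/2` there are path-pairable graphs with `n` vertices, at most `(2 - ε) n`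
edges and arbitrarily large diameter. Hence the function `f` asked for does not exist. -/
theorem result :
    (∀ ε : ℝ, ε < 1 / 2 → ∀ D : ℕ, ∃ (V : Type) (_ : Fintype V) (G : SimpleGraph V),
        Even (Fintype.card V) ∧ G.Connected ∧ PathPairable G ∧
        (G.edgeSet.ncard : ℝ) ≤ (2 - ε) * Fintype.card V ∧ D ≤ G.diam) ∧
    ¬ ∃ f : ℝ → ℕ, ∀ ε : ℝ, 0 < ε → ∀ (V : Type) (_ : Fintype V) (G : SimpleGraph V),
        Even (Fintype.card V) → G.Connected → PathPairable G →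
        (G.edgeSet.ncard : ℝ) ≤ (2 - ε) * Fintype.card V → G.diam ≤ f ε := by
  refine ⟨exists_graph, ?_⟩
  rintro ⟨f, hf⟩
  obtain ⟨V, hV, G, h1, h2, h3, h4, h5⟩ := exists_graph (1 / 4) (by norm_num) (f (1 / 4) + 1)
  have := hf (1 / 4) (by norm_num) V hV G h1 h2 h3 h4
  omega

end Pool.Agent.Results.MP_74cbe5_co.UnboundedDiameter
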